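import Pool.Agent.P8H5.GV.Stm

/-!
# Project GV, package COP: the logarithmically weighted Moebius sum over integers coprime to `r`
-/

set_option autoImplicit false

open Finset

namespace Pool.Agent.P8H90.GV

open Pool.Agent.P8H5.GV ArithmeticFunction

/-- the indicator of the integers all whose primes divide `r` -/
noncomputable def Z (r : ℕ) : ArithmeticFunction ℤ :=
  ⟨fun n => by classical exact if n ∈ Nat.factoredNumbers r.primeFactors then 1 else 0, by
    classical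
    simp [Nat.factoredNumbers]⟩

/-- the Moebius function on integers coprime to `r` -/
noncomputable def H (r : ℕ) : ArithmeticFunction ℤ :=
  ⟨fun n => if n.Coprime r then moebius n else 0, by simp⟩

lemma Z_apply (r n : ℕ) [Decidable (n ∈ Nat.factoredNumbers r.primeFactors)] :
    Z r n = if n ∈ Nat.factoredNumbers r.primeFactors then 1 else 0 := by
  classical
  unfold Z
  simp only [coe_mk]
  congr

lemma H_apply (r n : ℕ) : H r n = if n.Coprime r then moebius n else 0 := rfl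

lemma mem_fac {r n : ℕ} : n ∈ Nat.factoredNumbers r.primeFactors ↔
    n ≠ 0 ∧ ∀ p, p.Prime → p ∣ n → p ∈ r.primeFactors := by
  rw [Nat.mem_factoredNumbers]
  constructor
  · rintro ⟨h, h1⟩
    exact ⟨h, fun p hp hd => h1 p ((Nat.mem_primeFactorsList h).mpr ⟨hp, hd⟩)⟩
  · rintro ⟨h, h1⟩
    exact ⟨h, fun p hp => h1 p (Nat.prime_of_mem_primeFactorsList hp)
      (Nat.dvd_of_mem_primeFactorsList hp)⟩

lemma Z_mult (r : ℕ) : (Z r).IsMultiplicative := by
  classical
  constructor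
  · rw [Z_apply, if_pos]
    rw [mem_fac]
    refine ⟨one_ne_zero, fun p hp h => ?_⟩
    exact absurd (Nat.dvd_one.mp h) hp.one_lt.ne'
  · intro m n _
    rw [Z_apply, Z_apply, Z_apply]
    have : m * n ∈ Nat.factoredNumbers r.primeFactors ↔
        m ∈ Nat.factoredNumbers r.primeFactors ∧ n ∈ Nat.factoredNumbers r.primeFactors := by
      simp only [mem_fac]
      constructor
      · rintro ⟨h, h1⟩
        rw [Nat.mul_ne_zero_iff] at h
        exact ⟨⟨h.1, fun p hp hd => h1 p hp (hd.mul_right n)⟩, h.2,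
          fun p hp hd => h1 p hp (hd.mul_left m)⟩
      · rintro ⟨⟨h, h1⟩, h2, h3⟩
        refine ⟨Nat.mul_ne_zero h h2, fun p hp hd => ?_⟩
        rcases (Nat.Prime.dvd_mul hp).mp hd with hd | hd
        · exact h1 p hp hd
        · exact h3 p hp hd
    by_cases h1 : m ∈ Nat.factoredNumbers r.primeFactors <;>
    by_cases h2 : n ∈ Nat.factoredNumbers r.primeFactors <;> simp [this, h1, h2]

lemma H_mult (r : ℕ) : (H r).IsMultiplicative := by
  constructor
  · rw [H_apply]; simp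
  · intro m n hmn
    rw [H_apply, H_apply, H_apply, isMultiplicative_moebius.map_mul_of_coprime hmn]
    have h : (m * n).Coprime r ↔ m.Coprime r ∧ n.Coprime r := Nat.coprime_mul_iff_left
    by_cases h1 : m.Coprime r <;> by_cases h2 : n.Coprime r
    · rw [if_pos (h.mpr ⟨h1, h2⟩), if_pos h1, if_pos h2]
    · rw [if_neg (fun h3 => h2 (h.mp h3).2), if_neg h2, mul_zero]
    · rw [if_neg (fun h3 => h1 (h.mp h3).1), if_neg h1, zero_mul]
    · rw [if_neg (fun h3 => h1 (h.mp h3).1), if_neg h1, zero_mul]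

lemma conv (r : ℕ) (hr : r ≠ 0) : Z r * moebius = H r := by
  classical
  rw [((Z_mult r).mul isMultiplicative_moebius).eq_iff_eq_on_prime_powers _ _ (H_mult r)]
  intro p k hp
  rw [mul_apply, Nat.sum_divisorsAntidiagonal' (f := fun a b => Z r a * moebius b),
    Nat.sum_divisors_prime_pow hp, H_apply]
  rcases k with _ | k
  · simp [(Z_mult r).1]
  have hz : ∀ j, Z r (p ^ j) = if p ∣ r ∨ j = 0 then 1 else 0 := by
    intro j
    rw [Z_apply]
    congr 1
    rw [mem_fac]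
    apply propext
    constructor
    · rintro ⟨_, h⟩
      by_cases hj : j = 0
      · exact Or.inr hj
      · exact Or.inl (Nat.dvd_of_mem_primeFactors (h p hp (dvd_pow_self p hj)))
    · intro h
      refine ⟨pow_ne_zero _ hp.ne_zero, fun q hq hd => ?_⟩
      rcases h with h | h
      · have := (Nat.prime_dvd_prime_iff_eq hq hp).mp (hq.dvd_of_dvd_pow hd)
        rw [this]
        exact Nat.mem_primeFactors.mpr ⟨hp, h, hr⟩
      · rw [h, pow_zero] at hd
        exact absurd (Nat.dvd_one.mp hd) hq.one_lt.ne'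
  rw [sum_range_succ', sum_range_succ']
  have h0 : ∑ j ∈ range k, Z r (p ^ (k + 1) / p ^ (j + 1 + 1)) * moebius (p ^ (j + 1 + 1)) = 0 := by
    refine sum_eq_zero fun j _ => ?_
    rw [moebius_apply_prime_pow hp (by omega), if_neg (by omega), mul_zero]
  rw [h0]
  simp only [zero_add, pow_zero, Nat.div_one, pow_one, moebius_apply_one, mul_one,
    moebius_apply_prime hp]
  have h1 : p ^ (k + 1) / p = p ^ k := by
    rw [pow_succ, Nat.mul_div_cancel _ hp.pos]
  have hc : (p ^ (k + 1)).Coprime r ↔ ¬ p ∣ r := by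
    rw [Nat.coprime_pow_left_iff (by omega), hp.coprime_iff_not_dvd]
  rw [h1, hz, hz, moebius_apply_prime_pow hp (by omega)]
  by_cases hd : p ∣ r
  · rw [if_neg (c := (p ^ (k + 1)).Coprime r) (fun h => hc.mp h hd)]
    simp [hd]
  · rw [if_pos (c := (p ^ (k + 1)).Coprime r) (hc.mpr hd)]
    by_cases hk : k = 0
    · simp [hd, hk]
    · simp [hd, hk]

lemma sum_conv (F : ℕ → ℕ → ℝ) (N : ℕ) :
    ∑ m ∈ Icc 1 N, ∑ x ∈ m.divisorsAntidiagonal, F x.1 x.2 =
      ∑ b ∈ Icc 1 N, ∑ m ∈ Icc 1 (N / b), F b m := by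
  rw [sum_sigma', sum_sigma']
  refine sum_bij' (fun x _ => ⟨x.2.1, x.2.2⟩) (fun y _ => ⟨y.1 * y.2, (y.1, y.2)⟩) ?_ ?_ ?_ ?_ ?_
  · rintro ⟨m, a, b⟩ h
    simp only [mem_sigma, mem_Icc, Nat.mem_divisorsAntidiagonal] at h ⊢
    obtain ⟨⟨h1, h2⟩, h3, h4⟩ := h
    have ha : 0 < a := Nat.pos_of_ne_zero fun h => by simp [h] at h3; omega
    have hb : 0 < b := Nat.pos_of_ne_zero fun h => by simp [h] at h3; omega
    refine ⟨⟨ha, ?_⟩, hb, ?_⟩
    · have := Nat.le_mul_of_pos_right a hb; omega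
    · rw [Nat.le_div_iff_mul_le ha, mul_comm]; omega
  · rintro ⟨a, b⟩ h
    simp only [mem_sigma, mem_Icc, Nat.mem_divisorsAntidiagonal] at h ⊢
    obtain ⟨⟨h1, h2⟩, h3, h4⟩ := h
    rw [Nat.le_div_iff_mul_le h1] at h4
    have h5 : 0 < a * b := Nat.mul_pos h1 h3
    refine ⟨⟨h5, ?_⟩, trivial, h5.ne'⟩
    rw [mul_comm]; exact h4
  · rintro ⟨m, a, b⟩ h
    simp only [mem_sigma, mem_Icc, Nat.mem_divisorsAntidiagonal] at h ⊢
    rw [h.2.1]
  · rintro ⟨a, b⟩ h
    rfl
  · rintro ⟨m, a, b⟩ h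
    rfl

open Classical in
lemma A_eq (r : ℕ) (hr : r ≠ 0) (u : ℝ) : A r u =
    ∑ b ∈ (Icc 1 ⌊u⌋₊).filter (fun b => b ∈ Nat.factoredNumbers r.primeFactors), g (u / b) / b := by
  have h1 : A r u = ∑ m ∈ Icc 1 ⌊u⌋₊, ∑ x ∈ m.divisorsAntidiagonal,
      ((Z r x.1 : ℝ) * mu x.2 * Real.log (u / x.1 / x.2) / x.2 / x.1) := by
    unfold A
    rw [sum_filter]
    refine sum_congr rfl fun m hm => ?_
    have h2 : ∑ x ∈ m.divisorsAntidiagonal,
        ((Z r x.1 : ℝ) * mu x.2 * Real.log (u / x.1 / x.2) / x.2 / x.1) =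
        (∑ x ∈ m.divisorsAntidiagonal, (Z r x.1 : ℝ) * mu x.2) * (Real.log (u / m) / m) := by
      rw [sum_mul]
      refine sum_congr rfl fun x hx => ?_
      rw [Nat.mem_divisorsAntidiagonal] at hx
      rw [← hx.1, Nat.cast_mul, div_div, div_div, mul_comm (x.2 : ℝ) (x.1 : ℝ)]
      ring
    have h3 : ∑ x ∈ m.divisorsAntidiagonal, (Z r x.1 : ℝ) * mu x.2 = ((H r m : ℤ) : ℝ) := by
      rw [← conv r hr, mul_apply]
      push_cast
      rfl
    rw [h2, h3, H_apply]
    split_ifs with h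
    · unfold mu; ring
    · simp
  rw [h1, sum_conv (fun a b => ((Z r a : ℝ) * mu b * Real.log (u / a / b) / b / a)), sum_filter]
  refine sum_congr rfl fun b hb => ?_
  have e : ⌊u / b⌋₊ = ⌊u⌋₊ / b := Nat.floor_div_natCast u b
  rw [Z_apply]
  split_ifs with h
  · unfold g
    rw [e, sum_div]
    refine sum_congr rfl fun m _ => ?_
    simp
  · simp

/-- `b ↦ b^(-s)` -/
noncomputable def pw (s : ℝ) : ℕ →* ℝ where
  toFun b := (b : ℝ) ^ (-s)
  map_one' := by simp
  map_mul' m n := by push_cast; exact Real.mul_rpow (by positivity) (by positivity)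

lemma pw_apply (s : ℝ) (b : ℕ) : pw s b = (b : ℝ) ^ (-s) := rfl

lemma sum_pw (s : ℝ) (hs : 0 < s) (r : ℕ) :
    HasSum (fun m : Nat.factoredNumbers r.primeFactors => ((m : ℕ) : ℝ) ^ (-s))
      (∏ p ∈ r.primeFactors, (1 - (p : ℝ) ^ (-s))⁻¹) := by
  have h := (EulerProduct.summable_and_hasSum_factoredNumbers_prod_filter_prime_geometric
    (f := pw s) (fun {p} hp => by
      rw [pw_apply, Real.norm_of_nonneg (by positivity)]
      exact Real.rpow_lt_one_of_one_lt_of_neg (by exact_mod_cast hp.one_lt) (by linarith))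
    r.primeFactors).2
  rw [filter_true_of_mem (fun p hp => Nat.prime_of_mem_primeFactors hp)] at h
  exact h

lemma sum_one (r : ℕ) (hr : r ≠ 0) :
    HasSum (fun m : Nat.factoredNumbers r.primeFactors => (((m : ℕ) : ℝ))⁻¹)
      ((r : ℝ) / Nat.totient r) := by
  have h := sum_pw 1 one_pos r
  simp only [Real.rpow_neg_one] at h
  convert h using 1
  have h1 := Nat.totient_eq_mul_prod_factors r
  have h2 : ((Nat.totient r : ℕ) : ℝ) = r * ∏ p ∈ r.primeFactors, (1 - (p : ℝ)⁻¹) := by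
    have h3 := congrArg (fun x : ℚ => (x : ℝ)) h1
    push_cast at h3
    exact h3
  rw [prod_inv_distrib, h2]
  have : (r : ℝ) ≠ 0 := by exact_mod_cast hr
  field_simp

open Classical in
lemma A_tsum (r : ℕ) (hr : r ≠ 0) (u : ℝ) (hu : 0 ≤ u) : A r u =
    ∑' b : Nat.factoredNumbers r.primeFactors, g (u / (b : ℕ)) * ((b : ℕ) : ℝ)⁻¹ := by
  rw [A_eq r hr u, tsum_subtype (Nat.factoredNumbers r.primeFactors)
    (fun b : ℕ => g (u / b) * (b : ℝ)⁻¹), tsum_eq_sum (s := Icc 1 ⌊u⌋₊), sum_filter]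
  · refine sum_congr rfl fun b _ => ?_
    rw [Set.indicator_apply]
    congr 1
  · intro b hb
    rw [Set.indicator_apply]
    split_ifs with h
    · have hb0 : b ≠ 0 := (mem_fac.mp h).1
      rw [mem_Icc, not_and_or] at hb
      have hb1 : u < b := by
        rcases hb with hb | hb
        · omega
        · exact (Nat.floor_lt hu).mp (not_le.mp hb)
      have : g (u / b) = 0 := by
        unfold g
        rw [Nat.floor_eq_zero.mpr]
        · simp
        · rw [div_lt_one (by exact_mod_cast Nat.pos_of_ne_zero hb0)]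
          exact hb1
      rw [this, zero_mul]
    · rfl

theorem s_cop (hG : S_G) : S_COP := by
  obtain ⟨⟨C, hC, hg⟩, hlim⟩ := hG
  have hg' : ∀ v : ℝ, 0 ≤ v → |g v| ≤ C := by
    intro v hv
    rcases le_or_gt 1 v with h | h
    · exact hg v h
    · have : g v = 0 := by
        unfold g
        rw [Nat.floor_eq_zero.mpr h]
        simp
      rw [this, abs_zero]
      exact hC.le
  constructor
  · refine ⟨C, hC, fun r hr u hu => ?_⟩
    rw [A_tsum r (by omega) u (by linarith)]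
    have h1 := (sum_one r (by omega)).mul_left C
    rw [← Real.norm_eq_abs]
    refine tsum_of_norm_bounded h1 fun b => ?_
    rw [norm_mul, Real.norm_eq_abs, Real.norm_of_nonneg (by positivity)]
    exact mul_le_mul_of_nonneg_right (hg' _ (by positivity)) (by positivity)
  · intro ε hε
    obtain ⟨V, hV1, hV⟩ := hlim ε hε
    refine ⟨(C + 1) * V ^ (1 / 4 : ℝ), by positivity, fun r hr u hu => ?_⟩
    have hr0 : r ≠ 0 := by omega
    have hs1 := sum_one r hr0
    have hs2 := sum_pw (3 / 4) (by norm_num) r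
    have hsA : Summable (fun b : Nat.factoredNumbers r.primeFactors =>
        g (u / (b : ℕ)) * ((b : ℕ) : ℝ)⁻¹) := by
      refine Summable.of_norm_bounded (hs1.summable.mul_left C) fun b => ?_
      rw [norm_mul, Real.norm_eq_abs, Real.norm_of_nonneg (by positivity)]
      exact mul_le_mul_of_nonneg_right (hg' _ (by positivity)) (by positivity)
    have e : A r u - r / (Nat.totient r : ℝ) =
        ∑' b : Nat.factoredNumbers r.primeFactors,
          (g (u / (b : ℕ)) * ((b : ℕ) : ℝ)⁻¹ - ((b : ℕ) : ℝ)⁻¹) := by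
      rw [hsA.tsum_sub hs1.summable, hs1.tsum_eq, A_tsum r hr0 u (by linarith)]
    rw [e]
    have h2 : HasSum (fun b : Nat.factoredNumbers r.primeFactors => ε * ((b : ℕ) : ℝ)⁻¹ +
        (C + 1) * V ^ (1 / 4 : ℝ) * u ^ (-(1 / 8 : ℝ)) * ((b : ℕ) : ℝ) ^ (-(3 / 4 : ℝ)))
        (ε * (r / (Nat.totient r : ℝ)) + (C + 1) * V ^ (1 / 4 : ℝ) * u ^ (-(1 / 8 : ℝ)) * kk r) :=
      (hs1.mul_left ε).add (hs2.mul_left _)
    rw [← Real.norm_eq_abs]
    refine tsum_of_norm_bounded h2 fun b => ?_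
    have hb0 : (b : ℕ) ≠ 0 := (mem_fac.mp b.2).1
    have hb : (0 : ℝ) < (b : ℕ) := by exact_mod_cast Nat.pos_of_ne_zero hb0
    set β : ℝ := ((b : ℕ) : ℝ) with hβ
    have hu0 : 0 < u := by linarith
    have h3 : |g (u / β) - 1| ≤ ε + (C + 1) * V ^ (1 / 4 : ℝ) * u ^ (-(1 / 8 : ℝ)) *
        β ^ (1 / 4 : ℝ) := by
      rcases le_or_gt V (u / β) with h | h
      · refine (hV _ h).trans ?_
        have : 0 ≤ (C + 1) * V ^ (1 / 4 : ℝ) * u ^ (-(1 / 8 : ℝ)) * β ^ (1 / 4 : ℝ) := by positivity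
        linarith
      · have h4 : |g (u / β) - 1| ≤ C + 1 := by
          refine (abs_sub _ _).trans ?_
          rw [abs_one]
          have := hg' (u / β) (by positivity)
          linarith
        have h5 : 1 ≤ V ^ (1 / 4 : ℝ) * u ^ (-(1 / 8 : ℝ)) * β ^ (1 / 4 : ℝ) := by
          rw [div_lt_iff₀ hb] at h
          have h6 : u ^ (1 / 8 : ℝ) ≤ (V * β) ^ (1 / 4 : ℝ) := by
            calc u ^ (1 / 8 : ℝ) ≤ u ^ (1 / 4 : ℝ) :=
                  Real.rpow_le_rpow_of_exponent_le hu (by norm_num)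
              _ ≤ (V * β) ^ (1 / 4 : ℝ) := Real.rpow_le_rpow hu0.le h.le (by norm_num)
          rw [Real.mul_rpow (by linarith) hb.le] at h6
          have h7 : 0 < u ^ (1 / 8 : ℝ) := by positivity
          rw [Real.rpow_neg hu0.le]
          calc (1 : ℝ) = u ^ (1 / 8 : ℝ) * (u ^ (1 / 8 : ℝ))⁻¹ := by field_simp
            _ ≤ (V ^ (1 / 4 : ℝ) * β ^ (1 / 4 : ℝ)) * (u ^ (1 / 8 : ℝ))⁻¹ :=
                mul_le_mul_of_nonneg_right h6 (by positivity)
            _ = _ := by ring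
        calc |g (u / β) - 1| ≤ (C + 1) * 1 := by linarith
          _ ≤ (C + 1) * (V ^ (1 / 4 : ℝ) * u ^ (-(1 / 8 : ℝ)) * β ^ (1 / 4 : ℝ)) :=
              mul_le_mul_of_nonneg_left h5 (by linarith)
          _ ≤ _ := by
              have : (C + 1) * (V ^ (1 / 4 : ℝ) * u ^ (-(1 / 8 : ℝ)) * β ^ (1 / 4 : ℝ)) =
                (C + 1) * V ^ (1 / 4 : ℝ) * u ^ (-(1 / 8 : ℝ)) * β ^ (1 / 4 : ℝ) := by ring
              linarith
    have h4 : g (u / β) * β⁻¹ - β⁻¹ = (g (u / β) - 1) * β⁻¹ := by ring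
    rw [h4, norm_mul, Real.norm_eq_abs, Real.norm_of_nonneg (by positivity)]
    have h5 : β ^ (-(3 / 4 : ℝ)) = β ^ (1 / 4 : ℝ) * β⁻¹ := by
      rw [← Real.rpow_neg_one β, ← Real.rpow_add hb]
      norm_num
    rw [h5]
    calc |g (u / β) - 1| * β⁻¹ ≤ (ε + (C + 1) * V ^ (1 / 4 : ℝ) * u ^ (-(1 / 8 : ℝ)) *
          β ^ (1 / 4 : ℝ)) * β⁻¹ := mul_le_mul_of_nonneg_right h3 (by positivity)
      _ = _ := by ring

end Pool.Agent.P8H90.GV
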