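import Pool.Agent.W66.MA
import Pool.Agent.P8H5.GV.Stm

/-!
# Project GV, package G: the logarithmically weighted Moebius sum tends to one
-/

set_option autoImplicit false

open Finset

namespace Pool.Agent.P8H90.GV

open Pool.Agent.P8H5.GV

lemma g_eq (v : ℝ) (hv : 1 ≤ v) : g v = Real.log v * ∑ m ∈ Ioc 0 ⌊v⌋₊, mu m / m -
    ∑ m ∈ Ioc 0 ⌊v⌋₊, mu m * Real.log m / m := by
  unfold g
  rw [mul_sum, ← sum_sub_distrib]
  have : Icc 1 ⌊v⌋₊ = Ioc 0 ⌊v⌋₊ := by ext; simp [Nat.succ_le_iff]
  rw [this]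
  refine sum_congr rfl fun m hm => ?_
  rw [mem_Ioc] at hm
  have hm0 : (m : ℝ) ≠ 0 := by exact_mod_cast (by omega : m ≠ 0)
  rw [Real.log_div (by positivity) hm0]
  ring

theorem s_g : S_G := by
  obtain ⟨C, hC, h0⟩ := Pool.Agent.W66.m0_bound 2
  obtain ⟨C', hC', h1⟩ := Pool.Agent.W66.m1_bound 2
  have key : ∀ v : ℝ, 2 ≤ v → |g v - 1| ≤ (2 * C) / Real.log ⌊v⌋₊ + C' / Real.log ⌊v⌋₊ ^ 2 := by
    intro v hv
    have hw : 2 ≤ ⌊v⌋₊ := Nat.le_floor (by exact_mod_cast hv)
    have a0 := h0 _ hw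
    have a1 := h1 _ hw
    set w := ⌊v⌋₊ with hwd
    have hw0 : (0 : ℝ) < w := by exact_mod_cast (by omega : 0 < w)
    have hw2 : (2 : ℝ) ≤ w := by exact_mod_cast hw
    have hL : 0 < Real.log w := Real.log_pos (by linarith)
    have hlv : Real.log v ≤ 2 * Real.log w := by
      have : v ≤ (w : ℝ) ^ 2 := by
        have := Nat.lt_floor_add_one v
        rw [← hwd] at this
        nlinarith
      have h2 := Real.log_le_log (by linarith) this
      rwa [Real.log_pow, Nat.cast_ofNat] at h2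
    have hlv0 : 0 ≤ Real.log v := Real.log_nonneg (by linarith)
    rw [g_eq v (by linarith)]
    change |Real.log v * ∑ d ∈ Ioc 0 w, mu d / d - ∑ d ∈ Ioc 0 w, mu d * Real.log d / d - 1| ≤ _
    change |∑ d ∈ Ioc 0 w, mu d / d| ≤ _ at a0
    change |∑ d ∈ Ioc 0 w, mu d * Real.log d / d + 1| ≤ _ at a1
    have e : Real.log v * ∑ d ∈ Ioc 0 w, mu d / d - ∑ d ∈ Ioc 0 w, mu d * Real.log d / d - 1 =
        Real.log v * ∑ d ∈ Ioc 0 w, mu d / d - (∑ d ∈ Ioc 0 w, mu d * Real.log d / d + 1) := by ring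
    rw [e]
    refine (abs_sub _ _).trans ?_
    rw [abs_mul, abs_of_nonneg hlv0]
    refine add_le_add ?_ a1
    calc Real.log v * |∑ d ∈ Ioc 0 w, mu d / d| ≤ (2 * Real.log w) * (C / Real.log w ^ 2) :=
          mul_le_mul hlv a0 (abs_nonneg _) (by positivity)
      _ = 2 * C / Real.log w := by field_simp
  constructor
  · refine ⟨2 + 2 * C / Real.log 2 + C' / Real.log 2 ^ 2, ?_, fun v hv => ?_⟩
    · have : 0 < Real.log 2 := Real.log_pos (by norm_num)
      positivity
    have hl2 : 0 < Real.log 2 := Real.log_pos (by norm_num)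
    rcases le_or_gt 2 v with h2 | h2
    · have h3 := key v h2
      have hw : 2 ≤ ⌊v⌋₊ := Nat.le_floor (by exact_mod_cast h2)
      have hw2 : (2 : ℝ) ≤ (⌊v⌋₊ : ℝ) := by exact_mod_cast hw
      have hL : Real.log 2 ≤ Real.log ⌊v⌋₊ := Real.log_le_log (by norm_num) hw2
      have h4 : 2 * C / Real.log ⌊v⌋₊ ≤ 2 * C / Real.log 2 :=
        div_le_div_of_nonneg_left (by positivity) hl2 hL
      have h5 : C' / Real.log ⌊v⌋₊ ^ 2 ≤ C' / Real.log 2 ^ 2 :=
        div_le_div_of_nonneg_left (by positivity) (by positivity) (by gcongr)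
      have h6 : |g v| ≤ |g v - 1| + 1 := by
        have := abs_add_le (g v - 1) 1
        rw [sub_add_cancel, abs_one] at this
        exact this
      linarith
    · have hf : ⌊v⌋₊ = 1 := by
        rw [Nat.floor_eq_iff (by linarith)]
        constructor
        · exact_mod_cast hv
        · push_cast; linarith
      have : g v = Real.log v := by
        unfold g
        rw [hf]
        simp [mu]
      rw [this, abs_of_nonneg (Real.log_nonneg hv)]
      have h3 : Real.log v ≤ 1 := by
        have := Real.log_le_sub_one_of_pos (show 0 < v by linarith)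
        linarith
      have : 0 < 2 * C / Real.log 2 := by positivity
      have : 0 < C' / Real.log 2 ^ 2 := by positivity
      linarith
  · intro ε hε
    set L0 : ℝ := (2 * C + C') / ε + 1 with hL0
    have hL0' : 1 ≤ L0 := by
      have : 0 < (2 * C + C') / ε := by positivity
      linarith
    have hexp : 1 ≤ Real.exp L0 := Real.one_le_exp (by linarith)
    refine ⟨Real.exp L0 + 1, by linarith, fun v hv => ?_⟩
    have h2 : 2 ≤ v := by linarith
    have h3 := key v h2
    have hw : Real.exp L0 ≤ (⌊v⌋₊ : ℝ) := by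
      have := Nat.lt_floor_add_one v
      linarith
    have hL : L0 ≤ Real.log ⌊v⌋₊ := (Real.le_log_iff_exp_le (by linarith)).mpr hw
    set L := Real.log ⌊v⌋₊ with hLd
    have hLp : 0 < L := by linarith
    have h4 : C' / L ^ 2 ≤ C' / L := by
      apply div_le_div_of_nonneg_left hC'.le hLp
      nlinarith
    have h5 : (2 * C + C') / L ≤ ε := by
      rw [div_le_iff₀ hLp]
      have : (2 * C + C') / ε ≤ L := by linarith
      rw [div_le_iff₀ hε] at this
      linarith
    calc |g v - 1| ≤ 2 * C / L + C' / L ^ 2 := h3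
      _ ≤ 2 * C / L + C' / L := by linarith
      _ = (2 * C + C') / L := by ring
      _ ≤ ε := h5

end Pool.Agent.P8H90.GV
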