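import Pool.Agent.P8H5.GV.Stm
import Pool.Agent.TH212.DV.C2

/-!
# Project GV, package SUP: exponential sums of the test function
-/

set_option autoImplicit false

open Finset

namespace Pool.Agent.P8H90.GV

open Pool.Agent.P8H5.GV
open Pool.Agent.TH212.DV (Rd cr cz cr_eq spacing)
open Pool.Agent.H807R2.Dav (ee ee_add KK KK_nonneg geo_bound)

lemma e_eq (x : ℝ) : e x = ee x := rfl

lemma c_eq (r n : ℕ) (hr : 0 < r) : ((c r n : ℝ) : ℂ) = ∑ b ∈ Rd r, ee (n * ((b : ℝ) / r)) := by
  have h := cr_eq r (n : ℤ) hr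
  unfold cr at h
  have e1 : ((c r n : ℝ) : ℂ) = (cz r (n : ℤ) : ℂ) := by
    unfold c cz mu
    push_cast
    have : r.divisors.filter (fun d : ℕ => (d : ℤ) ∣ (n : ℤ)) =
        r.divisors.filter (fun d : ℕ => d ∣ n) := by
      apply filter_congr
      intro d _
      exact Int.natCast_dvd_natCast
    rw [this]
    refine sum_congr rfl fun d _ => ?_
    ring
  rw [e1, ← h]
  simp

/-- the majorant at the denominator `r` -/
noncomputable def W (N : ℕ) (α : ℝ) (r : ℕ) : ℝ := ∑ b ∈ Rd r, KK N (α + (b : ℝ) / r)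

lemma W_nonneg (N : ℕ) (α : ℝ) (r : ℕ) : 0 ≤ W N α r :=
  sum_nonneg fun _ _ => KK_nonneg (by positivity) _

lemma inner (N M r : ℕ) (hr : 0 < r) (hM : M ≤ N) (α : ℝ) :
    ‖∑ n ∈ Icc 1 M, (c r n : ℂ) * e (n * α)‖ ≤ W N α r := by
  have h1 : ∑ n ∈ Icc 1 M, (c r n : ℂ) * e (n * α) =
      ∑ b ∈ Rd r, ∑ n ∈ Ico 1 (M + 1), ee (n * (α + (b : ℝ) / r)) := by
    rw [sum_comm]
    have h0 : Icc 1 M = Ico 1 (M + 1) := by ext; simp [Nat.lt_succ_iff]
    rw [h0]
    refine sum_congr rfl fun n _ => ?_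
    rw [c_eq r n hr, sum_mul]
    refine sum_congr rfl fun b _ => ?_
    rw [e_eq, ← ee_add]
    congr 1
    ring
  rw [h1]
  refine (norm_sum_le _ _).trans (sum_le_sum fun b _ => ?_)
  refine geo_bound 1 (M + 1) (by omega) ?_ _
  push_cast
  have : (M : ℝ) ≤ N := by exact_mod_cast hM
  linarith

/-- one block -/
lemma block (N P : ℕ) (hP : 1 ≤ P) (α : ℝ) :
    ∑ r ∈ Ioc P (2 * P), W N α r / r ≤ 6 * N / P + 6 * P * (2 + 2 * Real.log (2 * P)) := by
  have hP0 : (0 : ℝ) < P := by exact_mod_cast hP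
  have h1 : ∑ r ∈ Ioc P (2 * P), W N α r / r ≤ ∑ r ∈ Ioc P (2 * P), W N α r / P := by
    refine sum_le_sum fun r hr => ?_
    rw [mem_Ioc] at hr
    exact div_le_div_of_nonneg_left (W_nonneg _ _ _) hP0 (by exact_mod_cast hr.1.le)
  have h2 : ∑ r ∈ Ioc P (2 * P), W N α r ≤ ∑ r ∈ Icc 1 (2 * P), W N α r := by
    refine sum_le_sum_of_subset_of_nonneg ?_ fun _ _ _ => W_nonneg _ _ _
    intro r hr
    rw [mem_Ioc] at hr
    rw [mem_Icc]
    omega
  have h3 := spacing (2 * P) (by omega) N α (by positivity)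
  have h4 : ∑ r ∈ Icc 1 (2 * P), W N α r ≤
      6 * N + 6 * (P : ℝ) ^ 2 * (2 + 2 * Real.log (2 * P)) := by
    refine h3.trans (le_of_eq ?_)
    push_cast
    ring
  rw [← sum_div] at h1
  refine h1.trans ?_
  rw [div_le_iff₀ hP0]
  refine (h2.trans h4).trans (le_of_eq ?_)
  field_simp

lemma blocks (N R D₀ : ℕ) (hR : 1 ≤ R) (α : ℝ) : ∀ D : ℕ, D ≤ D₀ →
    ∑ r ∈ Ioc R D, W N α r / r ≤
      4 * Real.log D * (6 * N / R + 6 * D₀ * (2 + 2 * Real.log (2 * D₀))) := by
  intro D
  induction D using Nat.strong_induction_on with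
  | _ D ih =>
    intro hD
    have hR0 : (0 : ℝ) < R := by exact_mod_cast hR
    have hB : 0 ≤ 6 * (N : ℝ) / R + 6 * D₀ * (2 + 2 * Real.log (2 * D₀)) := by
      have : 0 ≤ Real.log (2 * (D₀ : ℝ)) := by
        have := Real.log_natCast_nonneg (2 * D₀)
        push_cast at this
        exact this
      positivity
    have hW : ∀ r ∈ Ioc R D, 0 ≤ W N α r / (r : ℝ) := fun r _ =>
      div_nonneg (W_nonneg _ _ _) (by positivity)
    rcases le_or_gt D R with h | h
    · rw [Ioc_eq_empty (by omega), sum_empty]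
      have := Real.log_natCast_nonneg D
      positivity
    have hD2 : (2 : ℝ) ≤ D := by exact_mod_cast (by omega : 2 ≤ D)
    have hl2 : 1 ≤ 4 * Real.log D := by
      have h1 : Real.log 2 ≤ Real.log D := Real.log_le_log (by norm_num) hD2
      have h2 := Real.one_sub_inv_le_log_of_pos (show (0 : ℝ) < 2 by norm_num)
      norm_num at h2
      linarith
    -- a block starting at `P ∈ [R, D)`
    have hblock : ∀ P : ℕ, R ≤ P → P < D → D ≤ 2 * P → ∑ r ∈ Ioc P D, W N α r / r ≤
        6 * N / R + 6 * D₀ * (2 + 2 * Real.log (2 * D₀)) := by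
      intro P h1 h2 h3
      have hP0 : (0 : ℝ) < P := by exact_mod_cast (by omega : 0 < P)
      have h4 : ∑ r ∈ Ioc P D, W N α r / r ≤ ∑ r ∈ Ioc P (2 * P), W N α r / r := by
        refine sum_le_sum_of_subset_of_nonneg ?_ fun _ _ _ =>
          div_nonneg (W_nonneg _ _ _) (by positivity)
        intro r hr
        rw [mem_Ioc] at hr ⊢
        omega
      refine h4.trans ((block N P (by omega) α).trans ?_)
      have h5 : (P : ℝ) ≤ D₀ := by exact_mod_cast (by omega : P ≤ D₀)
      have h6 : 6 * (N : ℝ) / P ≤ 6 * N / R :=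
        div_le_div_of_nonneg_left (by positivity) hR0 (by exact_mod_cast h1)
      have h7 : Real.log (2 * P) ≤ Real.log (2 * D₀) :=
        Real.log_le_log (by positivity) (by linarith)
      have h8 : 0 ≤ Real.log (2 * (P : ℝ)) := by
        have := Real.log_natCast_nonneg (2 * P)
        push_cast at this
        exact this
      have h9 : 6 * (P : ℝ) * (2 + 2 * Real.log (2 * P)) ≤ 6 * D₀ * (2 + 2 * Real.log (2 * D₀)) :=
        mul_le_mul (by linarith) (by linarith) (by positivity) (by positivity)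
      linarith
    rcases le_or_gt D (2 * R) with h1 | h1
    · refine (hblock R le_rfl h h1).trans ?_
      exact le_mul_of_one_le_left hB hl2
    · set P := (D + 1) / 2 with hP
      have hPR : R ≤ P := by omega
      have hPD : P < D := by omega
      have hsplit : ∑ r ∈ Ioc R D, W N α r / r =
          ∑ r ∈ Ioc R P, W N α r / r + ∑ r ∈ Ioc P D, W N α r / r :=
        (sum_Ioc_consecutive _ hPR hPD.le).symm
      rw [hsplit]
      have h2 := ih P hPD (by omega)
      have h3 := hblock P hPR hPD (by omega)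
      have hP0 : (0 : ℝ) < P := by exact_mod_cast (by omega : 0 < P)
      have h4 : 1 / 4 ≤ Real.log D - Real.log P := by
        have h5 : (4 / 3 : ℝ) * P ≤ D := by
          have : 4 * P ≤ 3 * D := by omega
          have : (4 : ℝ) * P ≤ 3 * D := by exact_mod_cast this
          linarith
        have h6 := Real.log_le_log (by positivity) h5
        rw [Real.log_mul (by norm_num) hP0.ne'] at h6
        have h7 := Real.one_sub_inv_le_log_of_pos (show (0 : ℝ) < 4 / 3 by norm_num)
        norm_num at h7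
        linarith
      nlinarith

/-- SUP, from the trivial bound of the Ramanujan coefficients. -/
theorem s_sup' (ha : ∀ (y : ℝ) (r : ℕ), 1 ≤ y → 1 ≤ r → |a y r| ≤ (1 + Real.log y) ^ 2 / r) :
    S_SUP := by
  refine ⟨96, by norm_num, fun D R N M hR hRD hDN hMN α => ?_⟩
  have hR0 : (0 : ℝ) < R := by exact_mod_cast hR
  have hD1 : (1 : ℝ) ≤ D := by exact_mod_cast hR.trans hRD
  have hDN' : (D : ℝ) ≤ N := by exact_mod_cast hDN
  have hlD : 0 ≤ Real.log D := Real.log_nonneg hD1
  have hlDN : Real.log D ≤ Real.log N := Real.log_le_log (by linarith) hDN'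
  have h1 : ∑ n ∈ Icc 1 M, (F D R n : ℂ) * e (n * α) =
      ∑ r ∈ Ioc R D, (a D r : ℂ) * ∑ n ∈ Icc 1 M, (c r n : ℂ) * e (n * α) := by
    unfold F
    push_cast
    simp only [sum_mul, mul_sum]
    rw [sum_comm]
    refine sum_congr rfl fun r _ => sum_congr rfl fun n _ => by ring
  have h2 : ‖∑ n ∈ Icc 1 M, (F D R n : ℂ) * e (n * α)‖ ≤
      ∑ r ∈ Ioc R D, (1 + Real.log D) ^ 2 * (W N α r / r) := by
    rw [h1]
    refine (norm_sum_le _ _).trans (sum_le_sum fun r hr => ?_)
    rw [mem_Ioc] at hr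
    rw [norm_mul, Complex.norm_real, Real.norm_eq_abs]
    have h3 := ha D r hD1 (by omega)
    have h4 := inner N M r (by omega) hMN α
    calc |a D r| * ‖∑ n ∈ Icc 1 M, (c r n : ℂ) * e (n * α)‖ ≤
          ((1 + Real.log D) ^ 2 / r) * W N α r := mul_le_mul h3 h4 (norm_nonneg _) (by positivity)
      _ = _ := by ring
  refine h2.trans ?_
  rw [← mul_sum]
  have h3 := blocks N R D hR α D le_rfl
  have h4 : (1 + Real.log D) ^ 2 * ∑ r ∈ Ioc R D, W N α r / r ≤
      (1 + Real.log D) ^ 2 * (4 * Real.log D * (6 * N / R + 6 * D * (2 + 2 * Real.log (2 * D)))) :=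
    mul_le_mul_of_nonneg_left h3 (by positivity)
  refine h4.trans ?_
  set L := 1 + Real.log N with hL
  have hL1 : 1 ≤ L := by linarith
  have hlog2 : Real.log (2 * (D : ℝ)) ≤ L := by
    rw [Real.log_mul (by norm_num) (by linarith)]
    have := Real.log_le_sub_one_of_pos (show (0 : ℝ) < 2 by norm_num)
    linarith
  have hlog2' : 0 ≤ Real.log (2 * (D : ℝ)) := Real.log_nonneg (by linarith)
  have hNR : 0 ≤ (N : ℝ) / R := by positivity
  have h5 : 6 * (N : ℝ) / R + 6 * D * (2 + 2 * Real.log (2 * D)) ≤ 24 * (N / R + D) * L := by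
    have h6 : 6 * (N : ℝ) / R ≤ 24 * (N / R) * L := by
      have e6 : 6 * (N : ℝ) / R = 6 * (N / R) := by ring
      rw [e6]
      nlinarith
    have h7 : 6 * (D : ℝ) * (2 + 2 * Real.log (2 * D)) ≤ 24 * D * L := by
      have : 6 * (D : ℝ) * (2 + 2 * Real.log (2 * D)) ≤ 6 * D * (4 * L) :=
        mul_le_mul_of_nonneg_left (by linarith) (by positivity)
      linarith
    linarith
  have h8 : 0 ≤ 6 * (N : ℝ) / R + 6 * D * (2 + 2 * Real.log (2 * D)) := by positivity
  have h9 : 4 * Real.log D * (6 * N / R + 6 * D * (2 + 2 * Real.log (2 * D))) ≤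
      (4 * L) * (24 * (N / R + D) * L) :=
    mul_le_mul (by linarith) h5 h8 (by linarith)
  have h10 : (1 + Real.log D) ^ 2 ≤ L ^ 2 := by
    apply pow_le_pow_left₀ (by linarith)
    linarith
  calc (1 + Real.log D) ^ 2 * (4 * Real.log D * (6 * N / R + 6 * D * (2 + 2 * Real.log (2 * D)))) ≤
        L ^ 2 * ((4 * L) * (24 * (N / R + D) * L)) :=
          mul_le_mul h10 h9 (by positivity) (by positivity)
    _ = 96 * ((N : ℝ) / R + D) * L ^ 4 := by ring

theorem s_sup (h : S_RAM) : S_SUP := s_sup' h.2.1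

end Pool.Agent.P8H90.GV
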